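import Pool.Agent.W682.TW.Stm

set_option autoImplicit false

/-! TW-DOM: domination of the two minorants. -/

open scoped BigOperators

namespace Pool.Agent.W271.TW.Dom

open Pool.Agent.W682.TW hiding sq

theorem sgn_sq {σ : ℕ → ℝ} (hσ : Sgn σ) (s : ℕ) : σ s ^ 2 = 1 := by
  rcases hσ s with h | h <;> rw [h] <;> norm_num

theorem Yf_sq_le {n : ℕ} {σ : ℕ → ℝ} (hσ : Sgn σ) (b : Fin n → ℝ) (i : Fin n) :
    Yf n σ b i ^ 2 ≤ n * W682.TW.sq b := by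
  unfold Yf W682.TW.sq
  have h := Finset.sum_mul_sq_le_sq_mul_sq (Finset.univ : Finset (Fin n))
    (fun j => σ (i.val + j.val)) b
  have h2 : ∑ j : Fin n, σ (i.val + j.val) ^ 2 = n := by
    rw [Finset.sum_congr rfl fun j _ => sgn_sq hσ (i.val + j.val)]
    simp only [Finset.sum_const, Finset.card_univ, Fintype.card_fin, nsmul_eq_mul, mul_one]
  rwa [h2] at h

theorem sum_Yf_sq_le {n : ℕ} {σ : ℕ → ℝ} (hσ : Sgn σ) (b : Fin n → ℝ) :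
    ∑ i : Fin n, Yf n σ b i ^ 2 ≤ (n : ℝ) ^ 2 * W682.TW.sq b := by
  refine (Finset.sum_le_sum fun i _ => Yf_sq_le hσ b i).trans_eq ?_
  simp only [Finset.sum_const, Finset.card_univ, Fintype.card_fin, nsmul_eq_mul]
  ring

theorem sq_nonneg' {n : ℕ} (b : Fin n → ℝ) : 0 ≤ W682.TW.sq b :=
  Finset.sum_nonneg fun _ _ => sq_nonneg _

theorem pf_sq_le {n : ℕ} {σ : ℕ → ℝ} (hσ : Sgn σ) (a b : Fin n → ℝ) :
    pf n σ a b ^ 2 ≤ (n : ℝ) ^ 2 * W682.TW.sq a * W682.TW.sq b := by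
  have h1 : pf n σ a b = ∑ i : Fin n, a i * Yf n σ b i := by
    unfold pf Yf
    refine Finset.sum_congr rfl fun i _ => ?_
    rw [Finset.mul_sum]
    refine Finset.sum_congr rfl fun j _ => ?_
    ring
  rw [h1]
  have h := Finset.sum_mul_sq_le_sq_mul_sq (Finset.univ : Finset (Fin n)) a (Yf n σ b)
  refine h.trans ?_
  have h2 := mul_le_mul_of_nonneg_left (sum_Yf_sq_le hσ b) (sq_nonneg' a)
  unfold W682.TW.sq at h2 ⊢
  linarith

theorem psi_nonneg {n : ℕ} {σ : ℕ → ℝ} (b : Fin n → ℝ) : 0 ≤ psi n σ b := by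
  unfold psi
  have h : 1 ≤ Real.sqrt (∑ i : Fin n, Yf n σ b i ^ 4 + 1) := by
    rw [Real.one_le_sqrt]
    have : 0 ≤ ∑ i : Fin n, Yf n σ b i ^ 4 := Finset.sum_nonneg fun i _ => by positivity
    linarith
  linarith

theorem psi_le {n : ℕ} {σ : ℕ → ℝ} (hσ : Sgn σ) (b : Fin n → ℝ) :
    psi n σ b ≤ (n : ℝ) ^ 2 * W682.TW.sq b / 20 := by
  unfold psi
  have h0 : 0 ≤ ∑ i : Fin n, Yf n σ b i ^ 2 := Finset.sum_nonneg fun i _ => by positivity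
  have h1 : ∑ i : Fin n, Yf n σ b i ^ 4 ≤ (∑ i : Fin n, Yf n σ b i ^ 2) ^ 2 := by
    rw [pow_two (∑ i : Fin n, Yf n σ b i ^ 2), Finset.sum_mul]
    refine Finset.sum_le_sum fun i _ => ?_
    have h2 : Yf n σ b i ^ 2 ≤ ∑ i : Fin n, Yf n σ b i ^ 2 :=
      Finset.single_le_sum (f := fun i => Yf n σ b i ^ 2) (fun i _ => by positivity)
        (Finset.mem_univ i)
    have h3 := mul_le_mul_of_nonneg_left h2 (sq_nonneg (Yf n σ b i))
    calc Yf n σ b i ^ 4 = Yf n σ b i ^ 2 * Yf n σ b i ^ 2 := by ring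
      _ ≤ _ := h3
  have h4 : Real.sqrt (∑ i : Fin n, Yf n σ b i ^ 4 + 1)
      ≤ 1 + ∑ i : Fin n, Yf n σ b i ^ 2 := by
    apply Real.sqrt_le_iff.2
    constructor
    · linarith
    · nlinarith
  have h5 := sum_Yf_sq_le hσ b
  linarith

/-- the real inequality. -/
theorem core (N s θ P A B ψ ε Mc : ℝ) (hN : 5 ≤ N) (hs : s * N ^ 2 = 1) (hs0 : 0 < s)
    (hA : 0 ≤ A) (hB : 0 ≤ B) (hψ0 : 0 ≤ ψ) (hψ : ψ ≤ N ^ 2 * B / 20)
    (hP : P ^ 2 ≤ N ^ 2 * A * B) (h1 : -s ≤ θ) (h2 : θ ≤ 1 + s) (hε0 : 0 < ε) :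
    θ * P + 6 * A + 11 / 2 * B - (θ - θ ^ 2) * (ψ + A / 12) - ε * (1 + θ - θ ^ 2) - A ^ 2 / 144
      - (Mc * (θ ^ 2 - θ) - N ^ 2 * A + 23 / 4 * B - 1)
      ≤ 6 * N ^ 2 * A - A ^ 2 / 144 + 1 - 7 / 80 * B + (θ - θ ^ 2) * Mc := by
  have hs1 : s ≤ 1 / 25 := by
    have : 25 ≤ N ^ 2 := by nlinarith
    nlinarith
  have hθ : θ ^ 2 ≤ (1 + s) ^ 2 := by
    apply sq_le_sq'
    · linarith
    · linarith
  -- the coupling
  have hX : (θ * P) ^ 2 ≤ (B / 16 + 4 * (1 + s) ^ 2 * N ^ 2 * A) ^ 2 := by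
    have e1 : (θ * P) ^ 2 ≤ (1 + s) ^ 2 * (N ^ 2 * A * B) := by
      rw [mul_pow]
      exact mul_le_mul hθ hP (sq_nonneg _) (sq_nonneg _)
    have e2 : (B / 16 + 4 * (1 + s) ^ 2 * N ^ 2 * A) ^ 2 - (1 + s) ^ 2 * (N ^ 2 * A * B)
      = (B / 16 - 4 * (1 + s) ^ 2 * N ^ 2 * A) ^ 2 := by ring
    nlinarith [sq_nonneg (B / 16 - 4 * (1 + s) ^ 2 * N ^ 2 * A)]
  have hY : θ * P ≤ B / 16 + 4 * (1 + s) ^ 2 * N ^ 2 * A := by
    refine le_trans (le_abs_self _) ?_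
    exact abs_le_of_sq_le_sq hX (by positivity)
  -- q
  have hq : -(s + s ^ 2) ≤ θ - θ ^ 2 := by nlinarith
  have hq2 : -((θ - θ ^ 2) * (ψ + A / 12)) ≤ (s + s ^ 2) * (ψ + A / 12) := by
    have : 0 ≤ (θ - θ ^ 2 + (s + s ^ 2)) * (ψ + A / 12) :=
      mul_nonneg (by linarith) (by positivity)
    linarith
  have hψ2 : (s + s ^ 2) * ψ ≤ B / 10 := by
    have h3 : (s + s ^ 2) * ψ ≤ (s + s ^ 2) * (N ^ 2 * B / 20) :=
      mul_le_mul_of_nonneg_left hψ (by positivity)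
    have h4 : (s + s ^ 2) * (N ^ 2 * B / 20) = (1 + s) * B / 20 * (s * N ^ 2) := by ring
    rw [h4, hs] at h3
    nlinarith
  have hA2 : (s + s ^ 2) * (A / 12) ≤ A / 6 := by
    have h5 : s + s ^ 2 ≤ 2 := by nlinarith
    have h6 := mul_le_mul_of_nonneg_right h5 (by positivity : 0 ≤ A / 12)
    linarith
  have hε : 0 ≤ ε * (1 + θ - θ ^ 2) := mul_nonneg hε0.le (by nlinarith)
  have hA3 : 4 * (1 + s) ^ 2 * N ^ 2 * A = 4 * N ^ 2 * A + 8 * A + 4 * s * A := by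
    have : 4 * (1 + s) ^ 2 * N ^ 2 * A
      = 4 * N ^ 2 * A + 8 * A * (s * N ^ 2) + 4 * s * A * (s * N ^ 2) := by ring
    rw [this, hs]; ring
  rw [hA3] at hY
  have hN2 : 25 * A ≤ N ^ 2 * A := mul_le_mul_of_nonneg_right (by nlinarith) hA
  have hsA : s * A ≤ 1 / 25 * A := mul_le_mul_of_nonneg_right hs1 hA
  nlinarith

theorem main : S_DOM := by
  intro n σ ε Mc hn hσ hε0 hε1 hMc
  have hN : (5 : ℝ) ≤ n := by
    rw [hn]; norm_num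
  clear hn
  have hn0 : (0 : ℝ) < n := by linarith
  set s : ℝ := 1 / (n : ℝ) ^ 2 with hs
  have hs0 : 0 < s := by positivity
  have hs1 : s * (n : ℝ) ^ 2 = 1 := by
    rw [hs]; field_simp
  have hmain : ∀ x : St n, -s ≤ x.1 → x.1 ≤ 1 + s →
      g1 n σ ε x - g4 n Mc x ≤ 6 * (n : ℝ) ^ 2 * W682.TW.sq x.2.1 - W682.TW.sq x.2.1 ^ 2 / 144 + 1
        - 7 / 80 * W682.TW.sq x.2.2 + (x.1 - x.1 ^ 2) * Mc := by
    intro x h1 h2
    unfold g1 g4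
    exact core (n : ℝ) s x.1 (pf n σ x.2.1 x.2.2) (W682.TW.sq x.2.1) (W682.TW.sq x.2.2) (psi n σ x.2.2) ε Mc hN
      hs1 hs0 (sq_nonneg' _) (sq_nonneg' _) (psi_nonneg _) (psi_le hσ _) (pf_sq_le hσ _ _) h1 h2
      hε0
  have hN4 : (0 : ℝ) < (n : ℝ) ^ 4 := by positivity
  constructor
  · intro x hx
    have h1 : -s ≤ x.1 := by
      rcases hx with h | h
      · rw [h]
      · rw [h]; linarith
    have h2 : x.1 ≤ 1 + s := by
      rcases hx with h | h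
      · rw [h]; linarith
      · rw [h]
    have hq : x.1 - x.1 ^ 2 = -(s + s ^ 2) := by
      rcases hx with h | h
      · rw [h]; ring
      · rw [h]; ring
    have hm := hmain x h1 h2
    rw [hq] at hm
    have hsM : 2000 * (n : ℝ) ^ 4 ≤ s * Mc := by
      have h3 := mul_le_mul_of_nonneg_left hMc hs0.le
      have h4 : s * (2000 * (n : ℝ) ^ 6) = 2000 * (n : ℝ) ^ 4 * (s * (n : ℝ) ^ 2) := by ring
      rw [h4, hs1] at h3
      linarith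
    have hMc0 : 0 ≤ Mc := by
      have : (0 : ℝ) ≤ 2000 * (n : ℝ) ^ 6 := by positivity
      linarith
    have hs2M : 0 ≤ s ^ 2 * Mc := by positivity
    have hAA : 6 * (n : ℝ) ^ 2 * W682.TW.sq x.2.1 - W682.TW.sq x.2.1 ^ 2 / 144 ≤ 1296 * (n : ℝ) ^ 4 := by
      nlinarith [sq_nonneg (W682.TW.sq x.2.1 - 432 * (n : ℝ) ^ 2)]
    have hB := sq_nonneg' x.2.2
    have hN4' : 1 < (n : ℝ) ^ 4 := by
      have : (5 : ℝ) ^ 4 ≤ (n : ℝ) ^ 4 := pow_le_pow_left₀ (by norm_num) hN 4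
      norm_num at this
      linarith
    linarith
  · refine ⟨300 * (2592 * (n : ℝ) ^ 4 + Mc / 4 + 1) + 1, ?_⟩
    intro x h1 h2 hle
    have hm := hmain x h1 h2
    have hMc0 : 0 ≤ Mc := by
      have : (0 : ℝ) ≤ 2000 * (n : ℝ) ^ 6 := by positivity
      linarith
    have hq : (x.1 - x.1 ^ 2) * Mc ≤ 1 / 4 * Mc :=
      mul_le_mul_of_nonneg_right (by nlinarith [sq_nonneg (x.1 - 1 / 2)]) hMc0
    have hAA : 6 * (n : ℝ) ^ 2 * W682.TW.sq x.2.1 ≤ W682.TW.sq x.2.1 ^ 2 / 288 + 2592 * (n : ℝ) ^ 4 := by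
      nlinarith [sq_nonneg (W682.TW.sq x.2.1 - 864 * (n : ℝ) ^ 2)]
    have hA := sq_nonneg' x.2.1
    have hB := sq_nonneg' x.2.2
    have hK : 7 / 80 * W682.TW.sq x.2.2 + W682.TW.sq x.2.1 ^ 2 / 288 ≤ 2592 * (n : ℝ) ^ 4 + Mc / 4 + 1 := by
      linarith
    have hA2 : W682.TW.sq x.2.1 ≤ 1 + W682.TW.sq x.2.1 ^ 2 := by nlinarith [sq_nonneg (W682.TW.sq x.2.1 - 1)]
    have hA3 : 0 ≤ W682.TW.sq x.2.1 ^ 2 := by positivity
    constructor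
    · linarith
    · linarith

end Pool.Agent.W271.TW.Dom
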